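import Pool.Agent.X72.Pl.D

/-!
Plastic dense subgroups of `ℝ` of size `< 𝔠`: the statement of Q1 (no dense subgroup of `ℝ` of size
`< 𝔠` is plastic) is false as soon as there is a strongly Sierpiński set of size `< 𝔠`, in particular
if the null ideal has cofinality `ℵ₁ < 𝔠`.
-/

open MeasureTheory Set Cardinal

namespace Pool.Agent.Results.MP_f5469c_gt.PlasticBelowContinuum

/-- A metric space is plastic if every non-expansive bijection of it onto itself is an isometry. -/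
def Plastic (X : Type) [MetricSpace X] : Prop :=
  ∀ f : X → X, Function.Bijective f → (∀ x y, dist (f x) (f y) ≤ dist x y) → Isometry f

/-- The statement of Q1: no dense subgroup of `ℝ` of cardinality `< 𝔠` is plastic. -/
def Q1 : Prop :=
  ∀ G : AddSubgroup ℝ, Dense (G : Set ℝ) → #G < 𝔠 → ¬ Plastic G

/-- `S` is strongly Sierpiński: uncountable, and for every `n` and every Lebesgue null set
`N ⊆ ℝⁿ` there is a countable `A ⊆ S` such that no `n`-tuple of distinct elements of `S \ A` is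
in `N`. -/
def StronglySierpinski (S : Set ℝ) : Prop :=
  ¬ S.Countable ∧ ∀ (n : ℕ) (N : Set (Fin n → ℝ)), volume N = 0 →
    ∃ A ⊆ S, A.Countable ∧ ∀ x : Fin n → ℝ, Function.Injective x → (∀ i, x i ∈ S \ A) → x ∉ N

/-- For every `n`, the ideal of Lebesgue null subsets of `ℝⁿ` has a cofinal family of at most `ℵ₁`
sets (`cof(𝒩) = ℵ₁`). -/
def NullCofinality : Prop :=
  ∀ n : ℕ, ∃ 𝒩 : Set (Set (Fin n → ℝ)), #𝒩 ≤ ℵ₁ ∧ (∀ N ∈ 𝒩, volume N = 0) ∧
    ∀ N : Set (Fin n → ℝ), volume N = 0 → ∃ M ∈ 𝒩, N ⊆ M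

theorem part1 (S : Set ℝ) (hS : StronglySierpinski S) :
    Dense (AddSubgroup.closure S : Set ℝ) ∧ #(AddSubgroup.closure S) = #S ∧
      Plastic (AddSubgroup.closure S) := by
  have hinf : Infinite S := by
    rw [Set.infinite_coe_iff]
    intro h
    exact hS.1 h.countable
  refine ⟨?_, ?_, ?_⟩
  · obtain ⟨B, hBS, -, hB⟩ := Pool.Agent.X72.Pl.exists_dense_pair hS.1
    exact hB.mono (AddSubgroup.closure_mono hBS)
  · apply le_antisymm
    · have h2 : (AddSubgroup.closure S : Set ℝ) =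
          Set.range (Finsupp.linearCombination ℤ ((↑) : S → ℝ)) := by
        rw [← Submodule.span_int_eq_addSubgroupClosure]
        ext x
        simp only [Submodule.coe_toAddSubgroup, SetLike.mem_coe, mem_range]
        rw [Finsupp.mem_span_iff_linearCombination]
      calc #(AddSubgroup.closure S) = #(AddSubgroup.closure S : Set ℝ) := rfl
        _ = #(Set.range (Finsupp.linearCombination ℤ ((↑) : S → ℝ))) := by rw [h2]
        _ ≤ #(S →₀ ℤ) := mk_range_le
        _ = #S := by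
          rw [mk_finsupp_of_infinite, mk_int, max_eq_left (aleph0_le_mk S)]
    · exact mk_le_mk_of_subset AddSubgroup.subset_closure
  · intro f hf hd
    exact Pool.Agent.X72.Pl.plastic hS f hf hd

theorem part2 (h : NullCofinality) : ∃ S : Set ℝ, StronglySierpinski S ∧ #S = ℵ₁ := by
  let Ω : Type := (ℵ₁ : Cardinal.{0}).ord.ToType
  have hΩ : #Ω = ℵ₁ := mk_ord_toType _
  have hne : Nonempty Ω := by
    rw [← mk_ne_zero_iff, hΩ]
    exact (aleph_pos 1).ne'
  have hun : Uncountable Ω := by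
    rw [← aleph0_lt_mk_iff, hΩ]
    exact aleph0_lt_aleph_one
  have hc : ∀ a : Ω, (Iio a).Countable := by
    intro a
    rw [countable_iff_lt_aleph_one]
    exact mk_Iio_toType_ord_lt a
  have h1 : ∀ n : ℕ, ∃ g : Ω → Set (Fin n → ℝ), (∀ γ, volume (g γ) = 0) ∧
      ∀ N : Set (Fin n → ℝ), volume N = 0 → ∃ γ, N ⊆ g γ := by
    intro n
    obtain ⟨𝒩, h2, h3, h4⟩ := h n
    have hne' : Nonempty 𝒩 := by
      obtain ⟨M, hM, -⟩ := h4 ∅ measure_empty
      exact ⟨⟨M, hM⟩⟩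
    have h5 : #𝒩 ≤ #Ω := by rw [hΩ]; exact h2
    obtain ⟨⟨φ, hφ⟩⟩ := h5
    obtain ⟨ψ, hψ⟩ : ∃ ψ : Ω → 𝒩, Function.Surjective ψ :=
      ⟨Function.invFun φ, Function.invFun_surjective hφ⟩
    refine ⟨fun γ => (ψ γ : Set (Fin n → ℝ)), fun γ => h3 _ (ψ γ).2, fun N hN => ?_⟩
    obtain ⟨M, hM, hNM⟩ := h4 N hN
    obtain ⟨γ, hγ⟩ := hψ ⟨M, hM⟩
    refine ⟨γ, ?_⟩
    show N ⊆ (ψ γ : Set (Fin n → ℝ))
    rw [hγ]
    exact hNM
  choose 𝒩 h2 h3 using h1
  obtain ⟨x, hx, hS⟩ := Pool.Agent.X72.Pl.sierp hc hun h2 h3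
  refine ⟨Set.range x, hS, ?_⟩
  rw [mk_range_eq x hx, hΩ]

theorem part3 (h : ∃ S : Set ℝ, StronglySierpinski S ∧ #S < 𝔠) : ¬ Q1 := by
  obtain ⟨S, hS, hc⟩ := h
  obtain ⟨h1, h2, h3⟩ := part1 S hS
  intro hQ
  exact hQ _ h1 (by rw [h2]; exact hc) h3

/-- (1) The subgroup generated by a strongly Sierpiński set `S` is dense, has the cardinality of
`S` and is plastic. (2) If `cof(𝒩) = ℵ₁` then there is a strongly Sierpiński set of size `ℵ₁`.
(3) If there is a strongly Sierpiński set of size `< 𝔠`, then Q1 fails. (4) If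
`cof(𝒩) = ℵ₁ < 𝔠`, then Q1 fails. -/
theorem result :
    (∀ S : Set ℝ, StronglySierpinski S →
      Dense (AddSubgroup.closure S : Set ℝ) ∧ #(AddSubgroup.closure S) = #S ∧
        Plastic (AddSubgroup.closure S)) ∧
    (NullCofinality → ∃ S : Set ℝ, StronglySierpinski S ∧ #S = ℵ₁) ∧
    ((∃ S : Set ℝ, StronglySierpinski S ∧ #S < 𝔠) → ¬ Q1) ∧
    (NullCofinality → (ℵ₁ : Cardinal.{0}) < 𝔠 → ¬ Q1) := by
  refine ⟨part1, part2, part3, fun h hc => part3 ?_⟩
  obtain ⟨S, hS, hS'⟩ := part2 h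
  exact ⟨S, hS, by rw [hS']; exact hc⟩

end Pool.Agent.Results.MP_f5469c_gt.PlasticBelowContinuum
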